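import Mathlib

namespace Pool.Agent.Results.MP_7d0087_nt.Full

open Finset

/-- `u ≡ v (mod p^m)` for rationals: `(u - v) / p^m` has denominator prime to `p` -/
def cong (p m : ℕ) (u v : ℚ) : Prop := ¬ p ∣ ((u - v) / (p : ℚ) ^ m).den

instance (p m : ℕ) (u v : ℚ) : Decidable (cong p m u v) := by unfold cong; infer_instance

/-- the generalized binomial coefficient `a (a-1) ⋯ (a-k+1) / k!` -/
def bin (a : ℚ) (k : ℕ) : ℚ := (∏ i ∈ range k, (a - i)) / k.factorial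

theorem result : ¬ ∀ p : ℕ, p.Prime → 5 < p → p % 3 = 1 → ∀ A B : ℤ,
    (p : ℤ) = A ^ 2 + 3 * B ^ 2 → A ≡ 1 [ZMOD 3] → ¬ (5 ∣ B) →
    (A ≡ -1 * B [ZMOD 5] ∨ A ≡ -2 * B [ZMOD 5]) →
    cong p 2 (∑ k ∈ range p, bin (-1 / 2) k * bin (-1 / 3) k / (-4) ^ k)
      ((jacobiSym p 5 : ℚ) * ((A + 3 * B) - p / (A + 3 * B))) := by
  intro h
  have h1 := h 13 (by norm_num) (by norm_num) (by norm_num) 1 2 (by norm_num) (by decide)
    (by decide) (by decide)
  have e : jacobiSym (13 : ℕ) 5 = -1 := by norm_num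
  rw [e] at h1
  revert h1
  decide +kernel

end Pool.Agent.Results.MP_7d0087_nt.Full
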